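import Pool.Agent.MP_060950_al.Mg.AutK

namespace Pool.Agent.Results.MP_060950_al.IntersectionFails

open Pool.Agent.MP_060950_al

/-- There are two Fitting classes of finite soluble groups (even Lockett classes), both
satisfying the Lockett condition, whose intersection does not satisfy the Lockett condition. -/
theorem result :
    ∃ X Y : GroupClass, IsFitting X ∧ IsFitting Y ∧ upperStar X = X ∧ upperStar Y = Y ∧
      LockettCondition X ∧ LockettCondition Y ∧ ¬ LockettCondition (interClass X Y) :=
  counterexample

end Pool.Agent.Results.MP_060950_al.IntersectionFails
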